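import Pool.Agent.helper74.FD.SpecF

/-!
# MP_07c750, project FD, row FT0
-/

set_option autoImplicit false

open MeasureTheory Filter Set
open scoped ContDiff Topology ComplexConjugate

namespace Pool.Agent.FD

open scoped FourierTransform SchwartzMap ContDiff in
/-- the `L²` Fourier transform is the integral -/
private theorem FT0_ae (h : ℝ → ℂ) (h1 : Integrable h) (h2 : MemLp h 2) :
    ((𝓕 (h2.toLp h) : Lp ℂ 2 (volume : Measure ℝ)) : ℝ → ℂ) =ᵐ[volume] 𝓕 h := by
  have hc : Continuous (𝓕 h) := VectorFourier.fourierIntegral_continuous Real.continuous_fourierChar continuous_inner h1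
  apply ae_eq_of_integral_contDiff_smul_eq
  · exact (Lp.memLp _).locallyIntegrable (by norm_num)
  · exact hc.locallyIntegrable
  · intro g hg hgc
    have hg₁ : HasCompactSupport (Complex.ofRealCLM ∘ g) := hgc.comp_left rfl
    have hg₂ : ContDiff ℝ ∞ (Complex.ofRealCLM ∘ g) := by fun_prop
    set φ : 𝓢(ℝ, ℂ) := hg₁.toSchwartzMap hg₂ with hφ
    have e0 : ∀ x, φ x = ((g x : ℝ) : ℂ) := fun x => rfl
    have e1 : ∫ x, g x • ((𝓕 (h2.toLp h) : Lp ℂ 2 (volume : Measure ℝ)) : ℝ → ℂ) x =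
        Lp.toTemperedDistribution (𝓕 (h2.toLp h) : Lp ℂ 2 (volume : Measure ℝ)) φ := by
      rw [Lp.toTemperedDistribution_apply]
      apply integral_congr_ae
      refine Filter.Eventually.of_forall fun x => ?_
      show g x • _ = φ x • _
      rw [e0, Complex.coe_smul]
    have e2 : Lp.toTemperedDistribution (𝓕 (h2.toLp h) : Lp ℂ 2 (volume : Measure ℝ)) φ =
        Lp.toTemperedDistribution (h2.toLp h) (𝓕 φ) := by
      rw [← Lp.fourier_toTemperedDistribution_eq]
      rfl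
    have e3 : Lp.toTemperedDistribution (h2.toLp h) (𝓕 φ) = ∫ x, (𝓕 φ) x • h x := by
      rw [Lp.toTemperedDistribution_apply]
      apply integral_congr_ae
      filter_upwards [h2.coeFn_toLp] with x hx
      rw [hx]
    have e4 : ∫ x, (𝓕 φ) x • h x = ∫ x, φ x • (𝓕 h) x := by
      rw [SchwartzMap.fourier_coe]
      have h3 := VectorFourier.integral_fourierIntegral_smul_eq_flip (μ := volume) (ν := volume) (L := innerₗ ℝ)
        Real.continuous_fourierChar continuous_inner φ.integrable h1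
      have h4 : (innerₗ ℝ : ℝ →ₗ[ℝ] ℝ →ₗ[ℝ] ℝ).flip = innerₗ ℝ := by
        ext
        simp
      rw [h4] at h3
      exact h3
    rw [e1, e2, e3, e4]
    apply integral_congr_ae
    refine Filter.Eventually.of_forall fun x => ?_
    show φ x • _ = g x • _
    rw [e0, Complex.coe_smul]

private theorem FT0_l2 (f : Lp ℂ 2 (volume : Measure ℝ)) : ‖f‖ ^ 2 = ∫ x, ‖f x‖ ^ 2 := by
  have h1 : (inner ℂ f f : ℂ) = ((‖f‖ ^ 2 : ℝ) : ℂ) := by
    rw [inner_self_eq_norm_sq_to_K]
    push_cast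
    rfl
  rw [L2.inner_def] at h1
  have h2 : ∀ x, (inner ℂ (f x) (f x) : ℂ) = ((‖f x‖ ^ 2 : ℝ) : ℂ) := by
    intro x
    rw [inner_self_eq_norm_sq_to_K]
    push_cast
    rfl
  simp_rw [h2] at h1
  rw [integral_complex_ofReal] at h1
  exact (Complex.ofReal_injective h1).symm

open scoped FourierTransform in
private theorem FT0_main (h : ℝ → ℂ) (h1 : Integrable h) (h2 : MemLp h 2) :
    Integrable (fun x => ‖(𝓕 h) x‖ ^ 2) ∧ ∫ x, ‖(𝓕 h) x‖ ^ 2 = ∫ x, ‖h x‖ ^ 2 := by
  have hae := FT0_ae h h1 h2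
  have hm : MemLp (𝓕 h) 2 := (Lp.memLp (𝓕 (h2.toLp h) : Lp ℂ 2 (volume : Measure ℝ))).ae_eq hae
  refine ⟨hm.integrable_norm_pow (by norm_num), ?_⟩
  have e1 : ∫ x, ‖(𝓕 h) x‖ ^ 2 = ∫ x, ‖((𝓕 (h2.toLp h) : Lp ℂ 2 (volume : Measure ℝ)) : ℝ → ℂ) x‖ ^ 2 := by
    apply integral_congr_ae
    filter_upwards [hae] with x hx
    rw [hx]
  have e2 : ∫ x, ‖h x‖ ^ 2 = ∫ x, ‖(h2.toLp h : ℝ → ℂ) x‖ ^ 2 := by
    apply integral_congr_ae
    filter_upwards [h2.coeFn_toLp] with x hx
    rw [hx]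
  rw [e1, e2, ← FT0_l2, ← FT0_l2, Lp.norm_fourier_eq]

open scoped FourierTransform in
private theorem FT0_ft (f : ℝ → ℂ) : ft f = 𝓕 f := by
  funext ξ
  rw [Real.fourier_real_eq_integral_exp_smul]
  unfold ft
  congr 1
  funext x
  rw [smul_eq_mul, mul_comm]
  congr 4
  ring

open scoped FourierTransform in
private theorem FT0_fti (f : ℝ → ℂ) (x : ℝ) : fti f x = ft f (-x) := by
  unfold fti ft
  congr 1
  funext ξ
  congr 4
  ring

/-- **Row FT0**. -/
theorem FT0_proof : FT0_stmt := by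
  have hcont : ∀ f : ℝ → ℂ, Integrable f → Continuous (ft f) := by
    intro f hf
    rw [FT0_ft]
    exact VectorFourier.fourierIntegral_continuous Real.continuous_fourierChar continuous_inner hf
  have hbd : ∀ (f : ℝ → ℂ) (ξ : ℝ), ‖ft f ξ‖ ≤ ∫ x, ‖f x‖ := by
    intro f ξ
    unfold ft
    refine (norm_integral_le_integral_norm _).trans (le_of_eq ?_)
    congr 1
    funext x
    rw [norm_mul, Complex.norm_exp_ofReal_mul_I, mul_one]
  have hfti : ∀ f : ℝ → ℂ, fti f = fun x => ft f (-x) := fun f => funext (FT0_fti f)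
  have hinv : ∀ f : ℝ → ℂ, Continuous f → Integrable f → Integrable (ft f) → ∀ x, fti (ft f) x = f x := by
    intro f hc hf hF x
    rw [FT0_fti, FT0_ft (ft f), FT0_ft f] at *
    rw [← Real.fourierInv_eq_fourier_neg]
    exact hf.fourierInv_fourier_eq hF hc.continuousAt
  refine ⟨fun f hf => ⟨hcont f hf, ?_, hbd f, fun x => ?_⟩, FT0_fti, hinv, ?_, ?_⟩
  · rw [hfti]
    exact (hcont f hf).comp continuous_neg
  · rw [FT0_fti]
    exact hbd f _
  · intro m hc hm hM ξ
    have hM' : Integrable (ft m) := by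
      have h := hM.comp_neg
      refine h.congr (Eventually.of_forall fun x => ?_)
      show fti m (-x) = ft m x
      rw [FT0_fti, neg_neg]
    have h1 := hinv m hc hm hM' ξ
    rw [← h1]
    unfold ft
    rw [hfti]
    unfold fti
    rw [← integral_neg_eq_self]
    congr 1
    funext x
    show ft m (- -x) * _ = ft m x * _
    rw [neg_neg]
    congr 4
    ring
  · intro f hf h2
    obtain ⟨m1, m2⟩ := FT0_main f hf h2
    rw [← FT0_ft f] at m1 m2
    refine ⟨m1, m2, ?_, ?_⟩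
    · rw [hfti]
      exact m1.comp_neg
    · rw [hfti, ← m2]
      exact integral_neg_eq_self (fun x => ‖ft f x‖ ^ 2) volume

end Pool.Agent.FD
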